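import Pool.Agent.H336R2.Z5.B4
import Pool.Agent.H336R2.Z5.B5
import Pool.Agent.H336R2.Z5.B6

/-!
# Irrationality measure of `ζ(5)`: the linear form at an arbitrary rational number

`NL n x` is the functional `G` with `ζ(5)` replaced by the rational number `x`; the difference is
`24 (ζ(5) - x) rho`.
-/

open Polynomial Pool.Agent.H337R2 Pool.Agent.H336R2.Z5 Filter Topology

namespace Pool.Agent.H336R2.Z5M

noncomputable section

/-- sum of the coefficients of `(t+k)^(-5)` -/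
def rho (n : ℕ) (Q : ℚ[X]) : ℚ := ∑ k ∈ sN n, pa (sN n) (muN n) (PPn n * EE n Q) k 5

theorem hasSum_gen {n : ℕ} (hn : 2 ≤ n) (x : ℚ) (Q : ℚ[X]) (hQ : Q.natDegree ≤ 48 * n - 48) :
    HasSum (fun s : ℕ => Wt n s * aeval (xr n (tau n s)) Q)
      (((NL n x Q : ℚ) : ℝ) + 24 * ((rho n Q : ℚ) : ℝ) * ((x : ℝ) - zr 5)) := by
  have h4 := B4_int hn Q hQ
  have h6 := B5_half hn Q hQ
  have h := B6aux.comb hn Q (fun t => aeval t (PPn n * EE n Q) / aeval t (QQ (sN n) (muN n)))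
    (B6aux.term_eq n Q) h4 h6
  convert h using 1
  rw [NL_apply]
  unfold xf rho
  push_cast
  simp only [mul_sub, Finset.sum_sub_distrib]
  have e1 : ∀ (f g : ℕ → ℕ → ℝ), ∑ i ∈ Finset.Icc 1 6, ∑ k ∈ sN n, f i k * (7 * g i k) =
      7 * ∑ i ∈ Finset.Icc 1 6, ∑ k ∈ sN n, f i k * g i k := by
    intro f g
    simp only [Finset.mul_sum]
    refine Finset.sum_congr rfl fun i _ => Finset.sum_congr rfl fun k _ => ?_
    ring
  rw [e1 (fun i k => ((pa (sN n) (muN n) (PPn n * EE n Q) k i : ℚ) : ℝ))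
    (fun i k => ((hs i (k - 1) : ℚ) : ℝ))]
  ring

end

end Pool.Agent.H336R2.Z5M
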