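import Pool.Agent.H312R.ZA.Main
import Pool.Agent.H336R2.Z5M.Gen

/-!
# Irrationality measure of `ζ(5)`: the archimedean bound at rational numbers close to `ζ(5)`
(adapted from `H312R/ZA`)
-/

open Polynomial Pool.Agent.H337R2 Pool.Agent.H336R2.Z5 Pool.Agent.H312R.ZA Filter Topology

namespace Pool.Agent.H336R2.Z5M

noncomputable section

lemma entry_pert (N : ℚ[X] →ₗ[ℚ] ℚ) (F : ℚ[X] → ℝ) (m : ℕ) (w y : ℕ → ℝ)
    (hN : ∀ Q : ℚ[X], Q.natDegree ≤ 2 * m - 2 → HasSum (fun s => w s * aeval (y s) Q) (((N Q : ℚ) : ℝ) + F Q))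
    (x : ℕ → ℚ) (B : ℕ → ℝ) (M : ℝ) (hM0 : 0 ≤ M) (hMB : ∀ i < m, M ≤ B i)
    (hB : ∀ i < m, ∀ T : Finset ℕ, ∑ s ∈ T, |w s| * (aeval (y s) (lag m x i)) ^ 2 ≤ B i)
    (hF : ∀ i < m, ∀ j < m, |F (lag m x i * lag m x j)| ≤ M)
    (i j : ℕ) (hi : i < m) (hj : j < m) :
    ((N (lag m x i * lag m x j) : ℚ) : ℝ) ^ 2 ≤ (2 * B i) * (2 * B j) := by
  have hd : (lag m x i * lag m x j).natDegree ≤ 2 * m - 2 := by
    refine Polynomial.natDegree_mul_le.trans ?_
    rw [L2_natDegree_lag m x hi, L2_natDegree_lag m x hj]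
    omega
  have hs := hN _ hd
  have Bi0 : 0 ≤ B i := by simpa using hB i hi ∅
  have key : ∀ T : Finset ℕ, (∑ s ∈ T, w s * aeval (y s) (lag m x i * lag m x j)) ^ 2 ≤ B i * B j := by
    intro T
    have cs := Finset.sum_sq_le_sum_mul_sum_of_sq_le_mul T
      (r := fun s => w s * aeval (y s) (lag m x i * lag m x j))
      (f := fun s => |w s| * (aeval (y s) (lag m x i)) ^ 2)
      (g := fun s => |w s| * (aeval (y s) (lag m x j)) ^ 2)
      (fun s _ => by positivity) (fun s _ => by positivity)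
      (fun s _ => le_of_eq (by
        rw [map_mul]
        have : |w s| * |w s| = w s * w s := abs_mul_abs_self _
        linear_combination (-(aeval (y s) (lag m x i)) ^ 2 * (aeval (y s) (lag m x j)) ^ 2) * this))
    refine cs.trans ?_
    exact mul_le_mul (hB i hi T) (hB j hj T) (Finset.sum_nonneg fun s _ => by positivity) Bi0
  have ht : Tendsto (fun T : Finset ℕ => (∑ s ∈ T, w s * aeval (y s) (lag m x i * lag m x j)) ^ 2) atTop
      (𝓝 ((((N (lag m x i * lag m x j) : ℚ) : ℝ) + F (lag m x i * lag m x j)) ^ 2)) := by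
    have h1 : Tendsto (fun T : Finset ℕ => ∑ s ∈ T, w s * aeval (y s) (lag m x i * lag m x j)) atTop
      (𝓝 (((N (lag m x i * lag m x j) : ℚ) : ℝ) + F (lag m x i * lag m x j))) := hs
    exact h1.pow 2
  have h1 := le_of_tendsto' ht key
  have h2 := hF i hi j hj
  have h3 : F (lag m x i * lag m x j) ^ 2 ≤ B i * B j := by
    have h4 : F (lag m x i * lag m x j) ^ 2 ≤ M * M := by
      rw [← sq_abs, sq]
      exact mul_le_mul h2 h2 (abs_nonneg _) hM0
    exact h4.trans (mul_le_mul (hMB i hi) (hMB j hj) hM0 Bi0)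
  set a := ((N (lag m x i * lag m x j) : ℚ) : ℝ)
  set b := F (lag m x i * lag m x j)
  nlinarith [sq_nonneg (a + 2 * b)]

theorem det_pert (N : ℚ[X] →ₗ[ℚ] ℚ) (F : ℚ[X] → ℝ) (m : ℕ) (w y : ℕ → ℝ)
    (hN : ∀ Q : ℚ[X], Q.natDegree ≤ 2 * m - 2 → HasSum (fun s => w s * aeval (y s) Q) (((N Q : ℚ) : ℝ) + F Q))
    (x : ℕ → ℚ) (hx : Set.InjOn x (Finset.range m)) (B : ℕ → ℝ) (M : ℝ) (hM0 : 0 ≤ M) (hMB : ∀ i < m, M ≤ B i)
    (hB : ∀ i < m, ∀ T : Finset ℕ, ∑ s ∈ T, |w s| * (aeval (y s) (lag m x i)) ^ 2 ≤ B i)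
    (hF : ∀ i < m, ∀ j < m, |F (lag m x i * lag m x j)| ≤ M) :
    |(((Matrix.of fun i j : Fin m => N (X ^ (i.1 + j.1))).det : ℚ) : ℝ)| *
        ∏ i ∈ Finset.range m, ∏ j ∈ (Finset.range m).erase i, |((x i - x j : ℚ) : ℝ)| ≤
      (m.factorial : ℝ) * 2 ^ m * ∏ i ∈ Finset.range m, B i := by
  have L1 := L1_lagrange N m x hx
  have L1' : |(((Matrix.of fun i j : Fin m => N (lag m x i * lag m x j)).det : ℚ) : ℝ)| =
      |(((Matrix.of fun i j : Fin m => N (X ^ (i.1 + j.1))).det : ℚ) : ℝ)| *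
        ∏ i ∈ Finset.range m, ∏ j ∈ (Finset.range m).erase i, |((x i - x j : ℚ) : ℝ)| := by
    have := congrArg (fun q : ℚ => (q : ℝ)) L1
    simp only [Rat.cast_mul, Rat.cast_abs, Rat.cast_prod] at this
    exact this
  rw [← L1']
  have hdet : (((Matrix.of fun i j : Fin m => N (lag m x i * lag m x j)).det : ℚ) : ℝ) =
      (Matrix.of fun i j : Fin m => ((N (lag m x i * lag m x j) : ℚ) : ℝ)).det := by
    have := RingHom.map_det (Rat.castHom ℝ) (Matrix.of fun i j : Fin m => N (lag m x i * lag m x j))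
    rw [Rat.coe_castHom] at this
    rw [this]
    rfl
  rw [hdet]
  have B0 : ∀ i < m, 0 ≤ B i := fun i hi => by simpa using hB i hi ∅
  have hA := Pool.Agent.H336R2.HD.A4_abs_det m
    (Matrix.of fun i j : Fin m => ((N (lag m x i * lag m x j) : ℚ) : ℝ)) (fun i => max (2 * B i) 0)
    (fun i => le_max_right _ _) (fun i j => by
      rw [sq_abs, Matrix.of_apply, max_eq_left (by linarith [B0 i i.2]), max_eq_left (by linarith [B0 j j.2])]
      exact entry_pert N F m w y hN x B M hM0 hMB hB hF i j i.2 j.2)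
  refine hA.trans (le_of_eq ?_)
  rw [mul_assoc]
  congr 1
  have h2 : ∏ i ∈ Finset.range m, max (2 * B i) 0 = ∏ i ∈ Finset.range m, (2 * B i) :=
    Finset.prod_congr rfl fun i hi => max_eq_left (by linarith [B0 i (Finset.mem_range.mp hi)])
  rw [h2, Finset.prod_mul_distrib, Finset.prod_const, Finset.card_range]

theorem N7_pert {n : ℕ} (hn : 2 ≤ n) (u : ℚ) (F : ℚ[X] → ℝ)
    (hB1 : ∀ Q : ℚ[X], Q.natDegree ≤ 48 * n - 48 →
      HasSum (fun s => Wt n s * aeval (xr n (tau n s)) Q) (((NL n u Q : ℚ) : ℝ) + F Q))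
    (MM : ℝ) (hM0 : 0 ≤ MM)
    (hM : ∀ s, (∀ i < mN n, nd n i ≠ us n s) → |Wt n s| * PiM n (mN n) (us n s) ^ 2 ≤ MM)
    (hF : ∀ i < mN n, ∀ j < mN n, |F (lag (mN n) (fun j => xq n (nd n j)) i * lag (mN n) (fun j => xq n (nd n j)) j)| ≤ MM) :
    |((DET n u (mN n) : ℚ) : ℝ)| * ∏ i ∈ Finset.range (mN n), LL n (mN n) i ≤
      ((mN n).factorial : ℝ) * 2 ^ (mN n) * ∏ i ∈ Finset.range (mN n),
        (|Wt n (nd n i - 16 * n - 1)| * LL n (mN n) i ^ 2 + MM) := by
  have hdeg : 2 * mN n - 2 ≤ 48 * n - 48 := by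
    unfold mN
    omega
  have h := det_pert (NL n u) F (mN n) (fun s => Wt n s) (fun s => xr n (tau n s))
    (fun Q hQ => hB1 Q (le_trans hQ hdeg)) (fun j => xq n (nd n j)) (n7_inj (by omega) (mN n))
    (fun i => |Wt n (nd n i - 16 * n - 1)| * LL n (mN n) i ^ 2 + MM) MM hM0
    (fun i _ => le_add_of_nonneg_left (by positivity))
    (fun i hi T => N6_rowsum hn MM hM0 hM hi T) hF
  have hLL : ∏ i ∈ Finset.range (mN n), LL n (mN n) i =
      ∏ i ∈ Finset.range (mN n), ∏ j ∈ (Finset.range (mN n)).erase i,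
        |((xq n (nd n i) - xq n (nd n j) : ℚ) : ℝ)| := by
    apply Finset.prod_congr rfl
    intro i _
    unfold LL
    apply Finset.prod_congr rfl
    intro j _
    rw [n7_xu, n7_xu, Rat.cast_sub]
  rw [hLL]
  exact h

open AM in
/-- the archimedean bound at rational numbers close to `ζ(5)` -/
theorem A_pert_of (W2_weight : AM1.SW2) (E1_sat : AM.SE1) : ∃ (C1 : ℝ) (K1 : ℕ), 0 < C1 ∧
    ∀ᶠ n : ℕ in atTop, ∀ (u : ℚ) (F : ℚ[X] → ℝ),
    (∀ Q : ℚ[X], Q.natDegree ≤ 48 * n - 48 →
      HasSum (fun s => Wt n s * aeval (xr n (tau n s)) Q) (((NL n u Q : ℚ) : ℝ) + F Q)) →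
    (∀ i < mN n, ∀ j < mN n, |F (lag (mN n) (fun j => xq n (nd n j)) i * lag (mN n) (fun j => xq n (nd n j)) j)| ≤
      C1 * (n : ℝ) ^ K1 * Real.exp (297 / 2 * n + 92 * n * Real.log n)) →
    DET n u (mN n) ≠ 0 →
    Real.log |((DET n u (mN n) : ℚ) : ℝ)| ≤ 1058 * (n : ℝ) ^ 2 * Real.log n + 611 * (n : ℝ) ^ 2 := by
  have U1_nodes := U1_nodes_of P1_logsum
  have E2_non := E2_non_of P1_logsum P2_psisum
  obtain ⟨C1, K1, hC1, hM1⟩ := AM1.main W2_weight W3_far U1_nodes V1_upper
  obtain ⟨C2, K2, hC2, hW2⟩ := W2_weight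
  obtain ⟨C3, hC3, hU1⟩ := U1_nodes
  obtain ⟨C4, hC4, hE1⟩ := E1_sat
  obtain ⟨C5, hC5, hE2⟩ := E2_non
  refine ⟨C1, K1, hC1, ?_⟩
  -- polynomial factors
  obtain ⟨c1, hc1⟩ := poly_le (2 * C1) K1 (2 * C3) (by positivity)
  obtain ⟨c2, hc2⟩ := poly_le (2 * C2) K2 (2 * C3) (by positivity)
  set c0 : ℝ := |c1| + |c2| with hc0
  have key : ∀ n : ℕ, 2 ≤ n → ∀ (u : ℚ) (F : ℚ[X] → ℝ),
      (∀ Q : ℚ[X], Q.natDegree ≤ 48 * n - 48 →
        HasSum (fun s => Wt n s * aeval (xr n (tau n s)) Q) (((NL n u Q : ℚ) : ℝ) + F Q)) →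
      (∀ i < mN n, ∀ j < mN n, |F (lag (mN n) (fun j => xq n (nd n j)) i * lag (mN n) (fun j => xq n (nd n j)) j)| ≤
        C1 * (n : ℝ) ^ K1 * Real.exp (297 / 2 * n + 92 * n * Real.log n)) →
      DET n u (mN n) ≠ 0 →
      Real.log |((DET n u (mN n) : ℚ) : ℝ)| ≤ 1058 * (n : ℝ) ^ 2 * Real.log n + 609 * (n : ℝ) ^ 2 +
        (C4 + C5 + 23 * c0) * n * Real.log n + 23 * n * Real.log (23 * n) + 23 * n * Real.log 2 := by
    intro n hn u F hB hF hD
    have hn' : (2 : ℝ) ≤ n := by exact_mod_cast hn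
    have hn0 : (0 : ℝ) < n := by linarith
    have hl2 : 0 < Real.log 2 := Real.log_pos (by norm_num)
    have hl : 0 < Real.log n := lt_of_lt_of_le hl2 (Real.log_le_log (by norm_num) hn')
    set MM : ℝ := C1 * (n : ℝ) ^ K1 * Real.exp (297 / 2 * n + 92 * n * Real.log n) with hMM
    have hMM0 : 0 < MM := by positivity
    have h7 := N7_pert hn u F hB MM hMM0.le (fun s hs => hM1 n hn s hs) hF
    set m := mN n with hm
    have hm11 : 11 * n ≤ m := by simp only [hm, mN]; omega
    set W : ℕ → ℝ := fun i => |Wt n (nd n i - 16 * n - 1)| with hW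
    have hpos : ∀ i ∈ Finset.range m, 0 < LL n m i := fun i hi => (logLL hn (Finset.mem_range.mp hi)).1
    have hfac : ∀ i ∈ Finset.range m, 0 < W i * LL n m i ^ 2 + MM := by
      intro i hi
      have : 0 ≤ W i * LL n m i ^ 2 := mul_nonneg (abs_nonneg _) (sq_nonneg _)
      linarith
    -- take logarithms
    have hlog : Real.log |((DET n u m : ℚ) : ℝ)| + ∑ i ∈ Finset.range m, Real.log (LL n m i) ≤
        Real.log (m.factorial : ℝ) + m * Real.log 2 + ∑ i ∈ Finset.range m, Real.log (W i * LL n m i ^ 2 + MM) := by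
      have hDr : |((DET n u m : ℚ) : ℝ)| ≠ 0 := by
        rw [abs_ne_zero]
        exact_mod_cast hD
      have hDpos : 0 < |((DET n u m : ℚ) : ℝ)| := lt_of_le_of_ne (abs_nonneg _) (Ne.symm hDr)
      rw [← Real.log_prod (fun i hi => (hpos i hi).ne'), ← Real.log_prod (fun i hi => (hfac i hi).ne'),
        ← Real.log_mul hDr (Finset.prod_pos hpos).ne', ← Real.log_pow,
        ← Real.log_mul (by positivity) (by positivity),
        ← Real.log_mul (by positivity) (Finset.prod_pos hfac).ne']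
      exact Real.log_le_log (mul_pos hDpos (Finset.prod_pos hpos)) h7
    -- the individual bounds
    have hnd700 : ∀ i, i < m → nd n i ≤ 700 * n := fun i hi => by
      have := N3_upper hn hi
      omega
    have hus : ∀ i, us n (nd n i - 16 * n - 1) = nd n i := by
      intro i
      have := N2_lower (n := n) (by omega) i
      unfold us
      omega
    have hWi : ∀ i, i < m → W i ≤ C2 * (n : ℝ) ^ K2 * Real.exp (n * phi ((nd n i : ℝ) / n)) := by
      intro i hi
      have := hW2 n (by omega) (nd n i - 16 * n - 1) (by rw [hus i]; exact hnd700 i hi)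
      rw [hus i] at this
      exact this
    have hLLi : ∀ i, i < m → |Real.log (LL n m i) - (n * UU ((nd n i : ℝ) / n) + 46 * n * Real.log n)| ≤
        C3 * Real.log n := by
      intro i hi
      have := hU1 n hn (nd n i) (N2_lower (by omega) i) (hnd700 i hi)
      rw [← (logLL hn hi).2] at this
      exact this
    have hVV : ∀ v : ℝ, VV v = phi v + 2 * UU v := fun v => rfl
    -- saturated part
    have hSat : ∀ i, i < 11 * n → Real.log (W i * LL n m i ^ 2 + MM) ≤
        n * phi ((nd n i : ℝ) / n) + 2 * Real.log (LL n m i) + (if 9 * n ≤ i then 3 / 2 * (n : ℝ) else 0) +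
          c0 * Real.log n := by
      intro i hi
      have him : i < m := by omega
      have hLp := hpos i (Finset.mem_range.mpr him)
      set δ : ℝ := if 9 * n ≤ i then 3 / 2 * (n : ℝ) else 0 with hδ
      have hδ0 : 0 ≤ δ := by rw [hδ]; split_ifs <;> positivity
      have hv : 297 / 2 * (n : ℝ) ≤ n * VV ((nd n i : ℝ) / n) + δ := by
        by_cases h9 : 9 * n ≤ i
        · obtain ⟨ha, hb⟩ := nd_29_31 h9 hi
          have ha' : (29 : ℝ) ≤ (nd n i : ℝ) / n := by
            rw [le_div_iff₀ hn0]; exact_mod_cast ha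
          have hb' : (nd n i : ℝ) / n ≤ 31 := by
            rw [div_le_iff₀ hn0]; exact_mod_cast hb.le
          have := V3_lower _ ha' hb'
          rw [hδ, if_pos h9]
          nlinarith
        · have ha := N2_lower (n := n) (by omega) i
          have hb := nd_lt_29 (n := n) (i := i) (by omega)
          have ha' : (16 : ℝ) ≤ (nd n i : ℝ) / n := by
            rw [le_div_iff₀ hn0]; exact_mod_cast ha.le
          have hb' : (nd n i : ℝ) / n ≤ 29 := by
            rw [div_le_iff₀ hn0]; exact_mod_cast hb.le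
          have := V2_lower _ ha' hb'
          rw [hδ, if_neg h9]
          nlinarith
      have hL := abs_le.mp (hLLi i him)
      have hexp : Real.exp (n * phi ((nd n i : ℝ) / n) + 2 * Real.log (LL n m i)) =
          Real.exp (n * phi ((nd n i : ℝ) / n)) * LL n m i ^ 2 := by
        rw [Real.exp_add]
        congr 1
        rw [show 2 * Real.log (LL n m i) = Real.log (LL n m i ^ 2) by rw [Real.log_pow]; norm_num,
          Real.exp_log (by positivity)]
      set E := Real.exp (n * phi ((nd n i : ℝ) / n) + 2 * Real.log (LL n m i)) with hE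
      have hE0 : 0 < E := Real.exp_pos _
      have b1 : W i * LL n m i ^ 2 ≤ C2 * (n : ℝ) ^ K2 * E := by
        rw [hexp]
        calc W i * LL n m i ^ 2 ≤ C2 * (n : ℝ) ^ K2 * Real.exp (n * phi ((nd n i : ℝ) / n)) * LL n m i ^ 2 := by
              gcongr
              exact hWi i him
          _ = _ := by ring
      have b2 : MM ≤ C1 * (n : ℝ) ^ K1 * Real.exp (2 * C3 * Real.log n) * (E * Real.exp δ) := by
        rw [hMM, hE, mul_assoc (C1 * (n : ℝ) ^ K1), ← Real.exp_add, ← Real.exp_add]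
        apply mul_le_mul_of_nonneg_left (Real.exp_le_exp.mpr ?_) (by positivity)
        rw [hVV, mul_add] at hv
        have hL1 := hL.1
        linarith
      have b3 : C2 * (n : ℝ) ^ K2 * E ≤ 1 / 2 * Real.exp (c0 * Real.log n) * (E * Real.exp δ) := by
        have h1 : (1 : ℝ) ≤ Real.exp (2 * C3 * Real.log n) := Real.one_le_exp (by positivity)
        have h2 := hc2 n hn
        have h3 : Real.exp (c2 * Real.log n) ≤ Real.exp (c0 * Real.log n) := by
          apply Real.exp_le_exp.mpr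
          have : c2 ≤ c0 := by rw [hc0]; linarith [le_abs_self c2, abs_nonneg c1]
          gcongr
        have h4 : C2 * (n : ℝ) ^ K2 ≤ 1 / 2 * Real.exp (c0 * Real.log n) := by
          have : 2 * C2 * (n : ℝ) ^ K2 * 1 ≤ 2 * C2 * (n : ℝ) ^ K2 * Real.exp (2 * C3 * Real.log n) := by gcongr
          linarith
        have h5 : E ≤ E * Real.exp δ := le_mul_of_one_le_right hE0.le (Real.one_le_exp hδ0)
        calc C2 * (n : ℝ) ^ K2 * E ≤ 1 / 2 * Real.exp (c0 * Real.log n) * E := by gcongr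
          _ ≤ _ := by gcongr
      have b4 : C1 * (n : ℝ) ^ K1 * Real.exp (2 * C3 * Real.log n) * (E * Real.exp δ) ≤
          1 / 2 * Real.exp (c0 * Real.log n) * (E * Real.exp δ) := by
        have h2 := hc1 n hn
        have h3 : Real.exp (c1 * Real.log n) ≤ Real.exp (c0 * Real.log n) := by
          apply Real.exp_le_exp.mpr
          have : c1 ≤ c0 := by rw [hc0]; linarith [le_abs_self c1, abs_nonneg c2]
          gcongr
        have h4 : C1 * (n : ℝ) ^ K1 * Real.exp (2 * C3 * Real.log n) ≤ 1 / 2 * Real.exp (c0 * Real.log n) := by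
          linarith
        gcongr
      have b5 : W i * LL n m i ^ 2 + MM ≤ Real.exp (c0 * Real.log n) * (E * Real.exp δ) := by linarith
      calc Real.log (W i * LL n m i ^ 2 + MM) ≤ Real.log (Real.exp (c0 * Real.log n) * (E * Real.exp δ)) :=
            Real.log_le_log (hfac i (Finset.mem_range.mpr him)) b5
        _ = _ := by
            rw [hE, ← Real.exp_add, ← Real.exp_add, Real.log_exp]
            ring
    -- the other nodes
    have hNon : ∀ i, 11 * n ≤ i → i < m → Real.log (W i * LL n m i ^ 2 + MM) ≤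
        297 / 2 * (n : ℝ) + 92 * n * Real.log n + c0 * Real.log n := by
      intro i hi him
      have hLp := hpos i (Finset.mem_range.mpr him)
      have hv : n * VV ((nd n i : ℝ) / n) ≤ 297 / 2 * (n : ℝ) := by
        have ha := nd_31 (n := n) (i := i) hi
        have hb := hnd700 i him
        have ha' : (31 : ℝ) ≤ (nd n i : ℝ) / n := by
          rw [le_div_iff₀ hn0]; exact_mod_cast ha
        have hb' : (nd n i : ℝ) / n ≤ 700 := by
          rw [div_le_iff₀ hn0]; exact_mod_cast hb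
        have := V1_upper _ ha' hb'
        nlinarith
      have hL := abs_le.mp (hLLi i him)
      have hexp : LL n m i ^ 2 = Real.exp (2 * Real.log (LL n m i)) := by
        rw [show 2 * Real.log (LL n m i) = Real.log (LL n m i ^ 2) by rw [Real.log_pow]; norm_num,
          Real.exp_log (by positivity)]
      set F := Real.exp (297 / 2 * (n : ℝ) + 92 * n * Real.log n) with hF
      have hF0 : 0 < F := Real.exp_pos _
      have b1 : W i * LL n m i ^ 2 ≤ C2 * (n : ℝ) ^ K2 * Real.exp (2 * C3 * Real.log n) * F := by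
        calc W i * LL n m i ^ 2 ≤ C2 * (n : ℝ) ^ K2 * Real.exp (n * phi ((nd n i : ℝ) / n)) * LL n m i ^ 2 := by
              gcongr
              exact hWi i him
          _ = C2 * (n : ℝ) ^ K2 * Real.exp (n * phi ((nd n i : ℝ) / n) + 2 * Real.log (LL n m i)) := by
              rw [hexp, Real.exp_add]; ring
          _ ≤ C2 * (n : ℝ) ^ K2 * Real.exp (2 * C3 * Real.log n + (297 / 2 * (n : ℝ) + 92 * n * Real.log n)) := by
              apply mul_le_mul_of_nonneg_left (Real.exp_le_exp.mpr ?_) (by positivity)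
              rw [hVV, mul_add] at hv
              have hL2 := hL.2
              linarith
          _ = _ := by rw [Real.exp_add, hF]; ring
      have b2 : MM ≤ C1 * (n : ℝ) ^ K1 * Real.exp (2 * C3 * Real.log n) * F := by
        rw [hMM]
        have h1 : (1 : ℝ) ≤ Real.exp (2 * C3 * Real.log n) := Real.one_le_exp (by positivity)
        calc C1 * (n : ℝ) ^ K1 * F = C1 * (n : ℝ) ^ K1 * 1 * F := by ring
          _ ≤ _ := by gcongr
      have h3 : Real.exp (c2 * Real.log n) ≤ Real.exp (c0 * Real.log n) := by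
        apply Real.exp_le_exp.mpr
        have : c2 ≤ c0 := by rw [hc0]; linarith [le_abs_self c2, abs_nonneg c1]
        gcongr
      have h4 : Real.exp (c1 * Real.log n) ≤ Real.exp (c0 * Real.log n) := by
        apply Real.exp_le_exp.mpr
        have : c1 ≤ c0 := by rw [hc0]; linarith [le_abs_self c1, abs_nonneg c2]
        gcongr
      have b5 : W i * LL n m i ^ 2 + MM ≤ Real.exp (c0 * Real.log n) * F := by
        have h5 := hc1 n hn
        have h6 := hc2 n hn
        have h7 : C2 * (n : ℝ) ^ K2 * Real.exp (2 * C3 * Real.log n) ≤ 1 / 2 * Real.exp (c0 * Real.log n) := by linarith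
        have h8 : C1 * (n : ℝ) ^ K1 * Real.exp (2 * C3 * Real.log n) ≤ 1 / 2 * Real.exp (c0 * Real.log n) := by linarith
        have h9 := mul_le_mul_of_nonneg_right h7 hF0.le
        have h10 := mul_le_mul_of_nonneg_right h8 hF0.le
        linarith
      calc Real.log (W i * LL n m i ^ 2 + MM) ≤ Real.log (Real.exp (c0 * Real.log n) * F) :=
            Real.log_le_log (hfac i (Finset.mem_range.mpr him)) b5
        _ = _ := by
            rw [hF, ← Real.exp_add, Real.log_exp]
            ring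
    -- split the sums
    have hsplit : ∀ f : ℕ → ℝ, ∑ i ∈ Finset.range m, f i =
        ∑ i ∈ Finset.range (11 * n), f i + ∑ i ∈ Finset.Ico (11 * n) m, f i :=
      fun f => (Finset.sum_range_add_sum_Ico f hm11).symm
    have hS1 : ∑ i ∈ Finset.range (11 * n), Real.log (W i * LL n m i ^ 2 + MM) ≤
        ∑ i ∈ Finset.range (11 * n), (n * phi ((nd n i : ℝ) / n)) + 2 * ∑ i ∈ Finset.range (11 * n), Real.log (LL n m i) +
          3 * (n : ℝ) ^ 2 + 11 * n * (c0 * Real.log n) := by
      calc ∑ i ∈ Finset.range (11 * n), Real.log (W i * LL n m i ^ 2 + MM) ≤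
          ∑ i ∈ Finset.range (11 * n), (n * phi ((nd n i : ℝ) / n) + 2 * Real.log (LL n m i) +
            (if 9 * n ≤ i then 3 / 2 * (n : ℝ) else 0) + c0 * Real.log n) :=
            Finset.sum_le_sum fun i hi => hSat i (Finset.mem_range.mp hi)
        _ = _ := by
            rw [Finset.sum_add_distrib, Finset.sum_add_distrib, Finset.sum_add_distrib, ← Finset.mul_sum,
              Finset.sum_const, Finset.card_range, nsmul_eq_mul, ← Finset.sum_filter, Finset.sum_const,
              nsmul_eq_mul]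
            have hcard : ((Finset.range (11 * n)).filter (fun i => 9 * n ≤ i)).card = 2 * n := by
              have : (Finset.range (11 * n)).filter (fun i => 9 * n ≤ i) = Finset.Ico (9 * n) (11 * n) := by
                ext i; simp only [Finset.mem_filter, Finset.mem_range, Finset.mem_Ico]; tauto
              rw [this, Nat.card_Ico]; omega
            rw [hcard, ← Finset.mul_sum]
            push_cast
            ring
    have hS2 : ∑ i ∈ Finset.Ico (11 * n) m, Real.log (W i * LL n m i ^ 2 + MM) ≤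
        12 * n * (297 / 2 * (n : ℝ) + 92 * n * Real.log n + c0 * Real.log n) := by
      have hc00 : 0 ≤ c0 := by rw [hc0]; positivity
      calc ∑ i ∈ Finset.Ico (11 * n) m, Real.log (W i * LL n m i ^ 2 + MM) ≤
          ∑ i ∈ Finset.Ico (11 * n) m, (297 / 2 * (n : ℝ) + 92 * n * Real.log n + c0 * Real.log n) :=
            Finset.sum_le_sum fun i hi => hNon i (Finset.mem_Ico.mp hi).1 (Finset.mem_Ico.mp hi).2
        _ = ((m - 11 * n : ℕ) : ℝ) * (297 / 2 * (n : ℝ) + 92 * n * Real.log n + c0 * Real.log n) := by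
            rw [Finset.sum_const, Nat.card_Ico, nsmul_eq_mul]
        _ ≤ _ := by
            have h1 : ((m - 11 * n : ℕ) : ℝ) ≤ 12 * n := by
              have : m - 11 * n ≤ 12 * n := by simp only [hm, mN]; omega
              exact_mod_cast this
            have h2 : 0 ≤ 297 / 2 * (n : ℝ) + 92 * n * Real.log n + c0 * Real.log n := by positivity
            gcongr
    have hE3 := E3_cross hn
    have hE1n := hE1 n hn
    have hE2n := hE2 n hn
    rw [Finset.sum_add_distrib] at hE1n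
    have hfacm : Real.log (m.factorial : ℝ) ≤ 23 * n * Real.log (23 * n) := by
      have h1 : m ≤ 23 * n := by simp only [hm, mN]; omega
      have hmpos : 1 ≤ m := by omega
      have h2 : (m.factorial : ℝ) ≤ (m : ℝ) ^ m := by exact_mod_cast Nat.factorial_le_pow m
      have hm' : (m : ℝ) ≤ 23 * n := by exact_mod_cast h1
      have hm1 : (1 : ℝ) ≤ m := by exact_mod_cast hmpos
      calc Real.log (m.factorial : ℝ) ≤ Real.log ((m : ℝ) ^ m) := Real.log_le_log (by positivity) h2
        _ = m * Real.log m := by rw [Real.log_pow]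
        _ ≤ 23 * n * Real.log (23 * n) := by
            apply mul_le_mul hm' (Real.log_le_log (by linarith) hm') (Real.log_nonneg hm1) (by positivity)
    rw [hsplit, hsplit (fun i => Real.log (W i * LL n m i ^ 2 + MM))] at hlog
    have hm2 : (m : ℝ) * Real.log 2 ≤ 23 * n * Real.log 2 := by
      have h1 : m ≤ 23 * n := by simp only [hm, mN]; omega
      have hm' : (m : ℝ) ≤ 23 * n := by exact_mod_cast h1
      gcongr
    have heS := V4_eS
    have heN := V5_eN
    have q1 : eS * (n : ℝ) ^ 2 ≤ -212 * (n : ℝ) ^ 2 := by gcongr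
    have q2 : 964 * (n : ℝ) ^ 2 ≤ eN * (n : ℝ) ^ 2 := by gcongr
    have e1 : 12 * n * (297 / 2 * (n : ℝ) + 92 * n * Real.log n + c0 * Real.log n) =
        1782 * (n : ℝ) ^ 2 + 1104 * ((n : ℝ) ^ 2 * Real.log n) + 12 * (c0 * (n * Real.log n)) := by ring
    have e2 : 11 * (n : ℝ) * (c0 * Real.log n) = 11 * (c0 * (n * Real.log n)) := by ring
    have e3 : 242 * (n : ℝ) ^ 2 * Real.log n = 242 * ((n : ℝ) ^ 2 * Real.log n) := by ring
    have e4 : 288 * (n : ℝ) ^ 2 * Real.log n = 288 * ((n : ℝ) ^ 2 * Real.log n) := by ring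
    have e5 : 1058 * (n : ℝ) ^ 2 * Real.log n = 1058 * ((n : ℝ) ^ 2 * Real.log n) := by ring
    have e6 : (C4 + C5 + 23 * c0) * n * Real.log n = C4 * n * Real.log n + C5 * n * Real.log n +
        23 * (c0 * (n * Real.log n)) := by ring
    rw [e1] at hS2
    rw [e2] at hS1
    rw [e3] at hE1n
    rw [e4] at hE2n
    rw [e5, e6]
    linarith
  -- conclude
  have hlim : ∀ᶠ n : ℕ in atTop, (C4 + C5 + 23 * c0) * n * Real.log n + 23 * n * Real.log (23 * n) +
      23 * n * Real.log 2 ≤ 2 * (n : ℝ) ^ 2 := by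
    have h1 : Tendsto (fun n : ℕ => Real.log n / (n : ℝ)) atTop (𝓝 0) := by
      have := (Real.isLittleO_log_id_atTop.tendsto_div_nhds_zero).comp tendsto_natCast_atTop_atTop
      simpa [Function.comp_def] using this
    have h2 : Tendsto (fun n : ℕ => (C4 + C5 + 23 * c0 + 23) * (Real.log n / (n : ℝ)) +
        (23 * Real.log 23 + 23 * Real.log 2) * ((n : ℝ))⁻¹)
        atTop (𝓝 ((C4 + C5 + 23 * c0 + 23) * 0 + (23 * Real.log 23 + 23 * Real.log 2) * 0)) :=
      (h1.const_mul _).add (tendsto_inv_atTop_nhds_zero_nat.const_mul _)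
    rw [mul_zero, mul_zero, add_zero] at h2
    filter_upwards [h2.eventually (gt_mem_nhds (show (0 : ℝ) < 2 by norm_num)), eventually_ge_atTop 1] with n h3 h4
    have hn0 : (0 : ℝ) < n := by exact_mod_cast h4
    rw [Real.log_mul (by norm_num) hn0.ne']
    have h5 : (C4 + C5 + 23 * c0) * n * Real.log n + 23 * n * (Real.log 23 + Real.log n) + 23 * n * Real.log 2 =
        (n : ℝ) ^ 2 * ((C4 + C5 + 23 * c0 + 23) * (Real.log n / (n : ℝ)) +
          (23 * Real.log 23 + 23 * Real.log 2) * ((n : ℝ))⁻¹) := by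
      field_simp
      ring
    rw [h5, mul_comm (2 : ℝ)]
    gcongr
  filter_upwards [hlim, eventually_ge_atTop 2] with n h1 h2 u F hB hF hD
  have := key n h2 u F hB hF hD
  linarith

/-- the archimedean bound at rational numbers close to `ζ(5)` -/
theorem A_pert : ∃ (C1 : ℝ) (K1 : ℕ), 0 < C1 ∧
    ∀ᶠ n : ℕ in atTop, ∀ (u : ℚ) (F : ℚ[X] → ℝ),
    (∀ Q : ℚ[X], Q.natDegree ≤ 48 * n - 48 →
      HasSum (fun s => Wt n s * aeval (xr n (tau n s)) Q) (((NL n u Q : ℚ) : ℝ) + F Q)) →
    (∀ i < mN n, ∀ j < mN n, |F (lag (mN n) (fun j => xq n (nd n j)) i * lag (mN n) (fun j => xq n (nd n j)) j)| ≤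
      C1 * (n : ℝ) ^ K1 * Real.exp (297 / 2 * n + 92 * n * Real.log n)) →
    DET n u (mN n) ≠ 0 →
    Real.log |((DET n u (mN n) : ℚ) : ℝ)| ≤ 1058 * (n : ℝ) ^ 2 * Real.log n + 611 * (n : ℝ) ^ 2 :=
  A_pert_of W2_weight E1_sat'

end

end Pool.Agent.H336R2.Z5M
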