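import Pool.Agent.H336R2.Z5M.Meas

/-!
# `ζ(5)` is not a Liouville number
-/

open Pool.Agent.H337R2 Pool.Agent.H336R2.Z5

namespace Pool.Agent.H336R2.Z5M

noncomputable section

/-- a real number with a polynomial lower bound for the distance to all rational numbers is irrational
and not a Liouville number -/
lemma not_liouville {x : ℝ} {K : ℕ}
    (h : ∃ c : ℝ, 0 < c ∧ ∀ (a : ℤ) (b : ℕ), 0 < b → c / (b : ℝ) ^ K ≤ |x - (a : ℝ) / b|) :
    Irrational x ∧ ¬ Liouville x := by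
  obtain ⟨c, hc, h⟩ := h
  constructor
  · rintro ⟨q, hq⟩
    have h1 := h q.num q.den q.den_pos
    have h2 : ((q.num : ℤ) : ℝ) / (q.den : ℝ) = x := by
      rw [← hq]
      have := Rat.num_div_den q
      exact_mod_cast congrArg (fun t : ℚ => (t : ℝ)) this
    rw [h2, sub_self, abs_zero] at h1
    have h3 : 0 < c / ((q.den : ℕ) : ℝ) ^ K := by
      have : (0 : ℝ) < q.den := by exact_mod_cast q.den_pos
      positivity
    linarith
  · intro hL
    obtain ⟨k, hk⟩ := pow_unbounded_of_one_lt c⁻¹ (by norm_num : (1 : ℝ) < 2)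
    obtain ⟨a, b, hb1, -, hab⟩ := hL (K + k)
    have hb2 : (2 : ℝ) ≤ b := by exact_mod_cast hb1
    have hb0 : (0 : ℝ) < b := by linarith
    obtain ⟨m, hm⟩ := Int.eq_ofNat_of_zero_le (by omega : 0 ≤ b)
    have hm0 : 0 < m := by omega
    have h1 := h a m hm0
    have hbm : (b : ℝ) = (m : ℝ) := by rw [hm]; push_cast; rfl
    rw [← hbm] at h1
    have h2 : 1 / (b : ℝ) ^ (K + k) ≤ c / (b : ℝ) ^ K := by
      rw [div_le_div_iff₀ (by positivity) (by positivity), one_mul, pow_add]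
      have h3 : (2 : ℝ) ^ k ≤ (b : ℝ) ^ k := pow_le_pow_left₀ (by norm_num) hb2 k
      have h4 : 1 ≤ c * (b : ℝ) ^ k := by
        have h5 : c⁻¹ ≤ (b : ℝ) ^ k := hk.le.trans h3
        have h6 := mul_le_mul_of_nonneg_left h5 hc.le
        rwa [mul_inv_cancel₀ hc.ne'] at h6
      calc (b : ℝ) ^ K = (b : ℝ) ^ K * 1 := by ring
        _ ≤ (b : ℝ) ^ K * (c * (b : ℝ) ^ k) := by gcongr
        _ = _ := by ring
    linarith

theorem main : Irrational (zr 5) ∧ ¬ Liouville (zr 5) ∧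
    ∃ c : ℝ, 0 < c ∧ ∀ (p : ℤ) (q : ℕ), 0 < q → c / (q : ℝ) ^ 6180 ≤ |zr 5 - (p : ℝ) / q| :=
  ⟨(not_liouville measure).1, (not_liouville measure).2, measure⟩

end

end Pool.Agent.H336R2.Z5M
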