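import Pool.Agent.H336R2.Z5M.Rho

/-!
# Irrationality measure of `ζ(5)`: the size of the perturbation
-/

open Polynomial Pool.Agent.H337R2 Pool.Agent.H336R2.Z5 Pool.Agent.H312R.ZA Filter Topology

namespace Pool.Agent.H336R2.Z5M

noncomputable section

lemma log_num : Real.log 19742 ≤ 9.9091 := by
  have h1 : (19742 : ℝ) = 2 ^ 14 * (19742 / 16384) := by norm_num
  rw [h1, Real.log_mul (by norm_num) (by norm_num), Real.log_pow]
  have h2 : Real.log (19742 / 16384) ≤ 19742 / 16384 - 1 := Real.log_le_sub_one_of_pos (by norm_num)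
  have h3 := Real.log_two_lt_d9
  push_cast
  linarith

lemma TT_real (n : ℕ) : ((TT n : ℚ) : ℝ) =
    (24 * n + 2) * ((12 * (n : ℝ) + 1) ^ 2) ^ 49 * (19742 * (n : ℝ) ^ 2) ^ (2 * (mN n - 1)) *
    (((24 * (n : ℝ) + 1) ^ 2) ^ 6 * 2 ^ (96 * n)) := by
  unfold TT
  push_cast
  ring

lemma TT_le {n : ℕ} (hn : 1 ≤ n) : 24 * (20 * n * ((TT n : ℚ) : ℝ)) ≤
    (24 * 20 * 26 * 13 ^ 98 * 25 ^ 12) * (n : ℝ) ^ 112 *
      Real.exp (522.3608 * n + 92 * n * Real.log n) := by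
  rw [TT_real]
  have hn1 : (1 : ℝ) ≤ n := by exact_mod_cast hn
  have hn0 : (0 : ℝ) < n := by linarith
  have a1 : 24 * (n : ℝ) + 2 ≤ 26 * n := by linarith
  have a2 : ((12 * (n : ℝ) + 1) ^ 2) ^ 49 ≤ ((13 * n) ^ 2) ^ 49 := by
    have : 12 * (n : ℝ) + 1 ≤ 13 * n := by linarith
    gcongr
  have a3 : ((24 * (n : ℝ) + 1) ^ 2) ^ 6 ≤ ((25 * n) ^ 2) ^ 6 := by
    have : 24 * (n : ℝ) + 1 ≤ 25 * n := by linarith
    gcongr
  have a4 : (19742 * (n : ℝ) ^ 2) ^ (2 * (mN n - 1)) ≤ Real.exp (455.8186 * n + 92 * n * Real.log n) := by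
    have h1 : (1 : ℝ) ≤ 19742 * (n : ℝ) ^ 2 := by nlinarith
    have h2 : 2 * (mN n - 1) ≤ 46 * n := by unfold mN; omega
    refine (pow_le_pow_right₀ h1 h2).trans ?_
    have h3 : (19742 * (n : ℝ) ^ 2) ^ (46 * n) = Real.exp ((46 * n) * (Real.log 19742 + 2 * Real.log n)) := by
      have h4 : Real.log 19742 + 2 * Real.log n = Real.log (19742 * (n : ℝ) ^ 2) := by
        rw [Real.log_mul (by norm_num) (by positivity), Real.log_pow]
        push_cast
        ring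
      rw [h4, show (46 * (n : ℝ)) = ((46 * n : ℕ) : ℝ) by push_cast; ring, ← Real.log_pow,
        Real.exp_log (by positivity)]
    rw [h3]
    apply Real.exp_le_exp.2
    have h5 := log_num
    nlinarith
  have a5 : (2 : ℝ) ^ (96 * n) ≤ Real.exp (66.5422 * n) := by
    have h1 : (2 : ℝ) ^ (96 * n) = Real.exp (((96 * n : ℕ) : ℝ) * Real.log 2) := by
      rw [← Real.log_pow, Real.exp_log (by positivity)]
    rw [h1]
    apply Real.exp_le_exp.2
    have h3 := Real.log_two_lt_d9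
    push_cast
    nlinarith
  have e1 : Real.exp (522.3608 * n + 92 * n * Real.log n) =
      Real.exp (455.8186 * n + 92 * n * Real.log n) * Real.exp (66.5422 * n) := by
    rw [← Real.exp_add]
    congr 1
    ring
  rw [e1]
  set E1 := Real.exp (455.8186 * n + 92 * n * Real.log n)
  set E2 := Real.exp (66.5422 * n)
  have hE1 : 0 < E1 := Real.exp_pos _
  have hE2 : 0 < E2 := Real.exp_pos _
  calc _ ≤ 24 * (20 * n * ((26 * n) * ((13 * n) ^ 2) ^ 49 * E1 * (((25 * n) ^ 2) ^ 6 * E2))) := by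
        gcongr
    _ = _ := by ring

lemma exp_poly (A C1 : ℝ) (hC1 : 0 < C1) : ∀ᶠ n : ℕ in atTop, A * (n : ℝ) ^ 112 ≤ C1 * Real.exp n := by
  have h1 : Tendsto (fun n : ℕ => ((n : ℝ)) ^ 112 * Real.exp (-(n : ℝ))) atTop (𝓝 0) :=
    (Real.tendsto_pow_mul_exp_neg_atTop_nhds_zero 112).comp tendsto_natCast_atTop_atTop
  have h2 : Tendsto (fun n : ℕ => A * (((n : ℝ)) ^ 112 * Real.exp (-(n : ℝ)))) atTop (𝓝 (A * 0)) :=
    h1.const_mul _
  rw [mul_zero] at h2
  filter_upwards [h2.eventually (gt_mem_nhds hC1)] with n h3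
  have h6 : A * (n : ℝ) ^ 112 = (A * ((n : ℝ) ^ 112 * Real.exp (-(n : ℝ)))) * Real.exp n := by
    rw [mul_assoc, mul_assoc, ← Real.exp_add, neg_add_cancel, Real.exp_zero, mul_one]
  rw [h6]
  exact mul_le_mul_of_nonneg_right h3.le (Real.exp_pos _).le

/-- the perturbation is smaller than the main bound -/
theorem num_pert (C1 : ℝ) (K1 : ℕ) (hC1 : 0 < C1) : ∀ᶠ n : ℕ in atTop,
    24 * (20 * n * ((TT n : ℚ) : ℝ)) * Real.exp (-(375 * n)) ≤
      C1 * (n : ℝ) ^ K1 * Real.exp (297 / 2 * n + 92 * n * Real.log n) := by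
  filter_upwards [exp_poly (24 * 20 * 26 * 13 ^ 98 * 25 ^ 12) C1 hC1, eventually_ge_atTop 1] with n h5 hn
  have hn1 : (1 : ℝ) ≤ n := by exact_mod_cast hn
  have h4 := mul_le_mul_of_nonneg_right (TT_le hn) (Real.exp_pos (-(375 * (n : ℝ)))).le
  refine h4.trans ?_
  have h7 : (1 : ℝ) ≤ (n : ℝ) ^ K1 := one_le_pow₀ hn1
  have h8 : C1 * Real.exp n * Real.exp (522.3608 * n + 92 * n * Real.log n) * Real.exp (-(375 * (n : ℝ))) =
      C1 * 1 * Real.exp (n + (522.3608 * n + 92 * n * Real.log n) + -(375 * (n : ℝ))) := by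
    rw [mul_one, Real.exp_add ((n : ℝ) + (522.3608 * n + 92 * n * Real.log n)) (-(375 * (n : ℝ))),
      Real.exp_add (n : ℝ) (522.3608 * n + 92 * n * Real.log n)]
    simp only [mul_assoc]
  refine (mul_le_mul_of_nonneg_right (mul_le_mul_of_nonneg_right h5 (Real.exp_pos _).le)
    (Real.exp_pos _).le).trans ?_
  rw [h8]
  apply mul_le_mul (mul_le_mul_of_nonneg_left h7 hC1.le) _ (Real.exp_pos _).le (by positivity)
  apply Real.exp_le_exp.2
  linarith

end

end Pool.Agent.H336R2.Z5M
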