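import Pool.Agent.H336R2.Z5.P41

/-!
# Irrationality measure of `ζ(5)`: a prime in a short interval which does not divide `b`
-/

open Filter Topology

namespace Pool.Agent.H336R2.Z5M

noncomputable section

theorem prime_between : ∃ L0 : ℝ, 1 ≤ L0 ∧ ∀ L : ℝ, L0 ≤ L → ∀ b : ℕ, 0 < b → Real.log b ≤ L →
    ∃ p : ℕ, p.Prime ∧ 15.4 * L < p ∧ (p : ℝ) ≤ 16.478 * L ∧ ¬ p ∣ b := by
  obtain ⟨T, hT, hth⟩ := Pool.Agent.H336R2.Z5.theta_sub_le 0.002 (by norm_num)
  refine ⟨max T 1, le_max_right _ _, fun L hL b hb hbL => ?_⟩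
  have hL1 : 1 ≤ L := (le_max_right _ _).trans hL
  have hLT : T ≤ L := (le_max_left _ _).trans hL
  by_contra hcon
  push Not at hcon
  set S : Finset ℕ := (Finset.Ioc ⌊15.4 * L⌋₊ ⌊16.478 * L⌋₊).filter Nat.Prime with hS
  have hmem : ∀ p ∈ S, p.Prime ∧ p ∣ b := by
    intro p hp
    rw [hS, Finset.mem_filter, Finset.mem_Ioc] at hp
    refine ⟨hp.2, ?_⟩
    have h1 : 15.4 * L < p := (Nat.floor_lt (by positivity)).1 hp.1.1
    have h2 : (p : ℝ) ≤ 16.478 * L := (Nat.le_floor_iff (by positivity)).1 hp.1.2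
    exact hcon p hp.2 h1 h2
  have hdvd : ∏ p ∈ S, p ∣ b :=
    Finset.prod_primes_dvd b (fun p hp => (hmem p hp).1.prime) (fun p hp => (hmem p hp).2)
  have hle : ∏ p ∈ S, p ≤ b := Nat.le_of_dvd hb hdvd
  have hlog : ∑ p ∈ S, Real.log p ≤ Real.log b := by
    have h1 : ((∏ p ∈ S, p : ℕ) : ℝ) = ∏ p ∈ S, (p : ℝ) := by push_cast; rfl
    rw [← Real.log_prod (fun p hp => by
      have := (hmem p hp).1.pos
      positivity), ← h1]
    apply Real.log_le_log
    · have : 0 < ∏ p ∈ S, p := Finset.prod_pos fun p hp => (hmem p hp).1.pos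
      exact_mod_cast this
    · exact_mod_cast hle
  have hsum : ∑ p ∈ S, Real.log p = Chebyshev.theta (16.478 * L) - Chebyshev.theta (15.4 * L) := by
    rw [← Pool.Agent.H336R2.Z5.sum_one (15.4 * L) (16.478 * L) (by linarith), hS, Finset.sum_filter]
    refine Finset.sum_congr rfl fun k _ => ?_
    unfold Pool.Agent.H336R2.Z5.pw
    rw [one_mul]
  have h1 := abs_le.1 (hth (16.478 * L) (by linarith))
  have h2 := abs_le.1 (hth (15.4 * L) (by linarith))
  rw [hsum] at hlog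
  linarith [h1.1, h2.2]

end

end Pool.Agent.H336R2.Z5M
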