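import Pool.Agent.H336R2.Z5M.Arch
import Pool.Agent.H336R2.Z5M.NonV
import Pool.Agent.H336R2.Z5M.Num
import Pool.Agent.H336R2.Z5M.PB
import Pool.Agent.H336R2.Z5.Z

/-!
# Irrationality measure of `ζ(5)`: assembly
-/

open Polynomial Pool.Agent.H337R2 Pool.Agent.H336R2.Z5 Pool.Agent.H312R.ZA Filter Topology

namespace Pool.Agent.H336R2.Z5M

noncomputable section

/-- no good approximation with a large denominator -/
theorem large_den : ∃ b0 : ℕ, 1 ≤ b0 ∧ ∀ (a : ℤ) (b : ℕ), b0 ≤ b →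
    ((b : ℝ) ^ 6180)⁻¹ < |zr 5 - (a : ℝ) / b| := by
  obtain ⟨p0, hp0⟩ := nonvanish
  obtain ⟨C1, K1, hC1, hA⟩ := A_pert
  obtain ⟨L0, hL01, hPB⟩ := prime_between
  have hev := ((hA.and (num_pert C1 K1 hC1)).and ((ZP.P_main (1 / 1000) (by norm_num)).and ZP.P_large))
  rw [eventually_atTop] at hev
  obtain ⟨n0, hn0⟩ := hev
  obtain ⟨b0, hb0⟩ := exists_nat_gt (Real.exp (L0 + n0 + p0 + 25))
  refine ⟨b0, ?_, fun a b hb => ?_⟩
  · have : (0 : ℝ) < b0 := (Real.exp_pos _).trans hb0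
    have : 0 < b0 := by exact_mod_cast this
    omega
  by_contra hcon
  push Not at hcon
  have hbR : Real.exp (L0 + n0 + p0 + 25) < b := hb0.trans_le (by exact_mod_cast hb)
  have hbpos : (0 : ℝ) < b := (Real.exp_pos _).trans hbR
  have hb1 : 0 < b := by exact_mod_cast hbpos
  set L : ℝ := Real.log b with hL
  have hLbig : L0 + n0 + p0 + 25 < L := by
    rw [hL]
    exact (Real.lt_log_iff_exp_lt hbpos).2 hbR
  have hn0c : (0 : ℝ) ≤ n0 := Nat.cast_nonneg _
  have hp0c : (0 : ℝ) ≤ p0 := Nat.cast_nonneg _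
  obtain ⟨n, hnp, hnL, hnU, hnb⟩ := hPB L (by linarith) b hb1 le_rfl
  have : Fact n.Prime := ⟨hnp⟩
  have hnR : L0 + n0 + p0 + 25 < n := by linarith
  have hnn0 : n0 ≤ n := by
    have : (n0 : ℝ) ≤ n := by linarith
    exact_mod_cast this
  have hnp0 : p0 ≤ n := by
    have : (p0 : ℝ) ≤ n := by linarith
    exact_mod_cast this
  have hn25 : 25 ≤ n := by
    have : ((25 : ℕ) : ℝ) ≤ n := by push_cast; linarith
    exact_mod_cast this
  have hnpos : (0 : ℝ) < n := by linarith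
  -- the rational number
  set x : ℚ := (a : ℚ) / b with hx
  have hbq : (b : ℚ) ≠ 0 := by exact_mod_cast hb1.ne'
  have hxR : (x : ℝ) = (a : ℝ) / b := by rw [hx]; push_cast; rfl
  have hu : UInt b x := ⟨hb1, a, by rw [hx]; field_simp⟩
  have hnx : padicNorm n x ≤ 1 := by
    rw [hx, padicNorm.div]
    have h1 : padicNorm n (b : ℚ) = 1 := (padicNorm.nat_eq_one_iff b).2 hnb
    rw [h1, div_one]
    exact padicNorm.of_int a
  have hDne : DET n x (mN n) ≠ 0 := hp0 n hnp0 hnp x hnx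
  obtain ⟨⟨hAn, hnum⟩, hPn, hLn⟩ := hn0 n hnn0
  -- the distance
  have hdist : |(x : ℝ) - zr 5| ≤ Real.exp (-(375 * n)) := by
    rw [abs_sub_comm, hxR]
    refine hcon.trans ?_
    have h1 : ((b : ℝ) ^ 6180)⁻¹ = Real.exp (-(6180 * L)) := by
      rw [Real.exp_neg, show 6180 * L = ((6180 : ℕ) : ℝ) * Real.log b by push_cast; rfl, ← Real.log_pow,
        Real.exp_log (by positivity)]
    rw [h1]
    apply Real.exp_le_exp.2
    linarith
  -- archimedean bound
  have hArch := hAn x (fun Q => 24 * ((rho n Q : ℚ) : ℝ) * ((x : ℝ) - zr 5))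
    (fun Q hQ => hasSum_gen (by omega) x Q hQ) (fun i hi j hj => by
      refine le_trans ?_ hnum
      have h1 := rho_bound hn25 hi hj
      have h2 : |((rho n (LLp n i j) : ℚ) : ℝ)| ≤ 20 * n * ((TT n : ℚ) : ℝ) := by
        have : ((|rho n (LLp n i j)| : ℚ) : ℝ) ≤ ((20 * n * TT n : ℚ) : ℝ) := by exact_mod_cast h1
        rw [Rat.cast_abs] at this
        push_cast at this
        exact this
      rw [abs_mul, abs_mul, abs_of_pos (by norm_num : (0 : ℝ) < 24)]
      exact mul_le_mul (mul_le_mul_of_nonneg_left h2 (by norm_num)) hdist (abs_nonneg _)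
        (mul_nonneg (by norm_num) ((abs_nonneg _).trans h2))) hDne
  have hP1 := hPn b x hu hDne
  have hL1 := hLn b x hu
  -- product formula
  set z : ℚ := (b : ℚ) ^ (mN n) * DET n x (mN n) with hz
  have hz0 : z ≠ 0 := mul_ne_zero (pow_ne_zero _ hbq) hDne
  set S : Finset ℕ := (Finset.range (48 * n + 1)).filter Nat.Prime with hS
  have hpf := Pool.Agent.H336R2.HD.A5_prod_formula z hz0 S (fun p hp => (Finset.mem_filter.1 hp).2)
    (fun p => ((padicNorm p z : ℚ) : ℝ)) (fun p _ => le_rfl) (fun p hp hpS => by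
      rw [hS, Finset.mem_filter, Finset.mem_range] at hpS
      have h1 : 48 * n < p := by
        by_contra h; exact hpS ⟨by omega, hp⟩
      exact hL1 p hp h1)
  have hpos : ∀ p ∈ S, 0 < ((padicNorm p z : ℚ) : ℝ) := by
    intro p hp
    have : Fact p.Prime := ⟨(Finset.mem_filter.1 hp).2⟩
    have h1 : 0 < padicNorm p z := lt_of_le_of_ne (padicNorm.nonneg _) (Ne.symm (padicNorm.nonzero hz0))
    exact_mod_cast h1
  have hprodpos : 0 < ∏ p ∈ S, ((padicNorm p z : ℚ) : ℝ) := Finset.prod_pos hpos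
  have hzabs : 0 < |(z : ℝ)| := abs_pos.2 (by exact_mod_cast hz0)
  have hlog := Real.log_nonneg hpf
  rw [Real.log_mul hzabs.ne' hprodpos.ne', Real.log_prod (fun p hp => (hpos p hp).ne')] at hlog
  have hzlog : Real.log |(z : ℝ)| = ((mN n : ℕ) : ℝ) * L + Real.log |((DET n x (mN n) : ℚ) : ℝ)| := by
    rw [hz]
    push_cast
    rw [abs_mul, Real.log_mul (abs_pos.2 (by positivity)).ne' (abs_pos.2 (by exact_mod_cast hDne)).ne',
      abs_of_pos (by positivity), Real.log_pow]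
    push_cast
    ring
  have hLpos : 0 < L := by linarith
  have hmq : ((mN n : ℕ) : ℝ) * L ≤ 23 * n * L := by
    apply mul_le_mul_of_nonneg_right _ hLpos.le
    have : mN n ≤ 23 * n := by unfold mN; omega
    exact_mod_cast this
  have h1 : 23 * n * L ≤ 23 / 15.4 * (n : ℝ) ^ 2 := by
    have : L ≤ n / 15.4 := by
      rw [le_div_iff₀ (by norm_num)]
      linarith
    calc 23 * n * L ≤ 23 * n * (n / 15.4) := by gcongr
      _ = _ := by ring
  have h2 : (0 : ℝ) < (n : ℝ) ^ 2 := by positivity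
  nlinarith

/-- **Irrationality measure of `ζ(5)`** -/
theorem measure : ∃ c : ℝ, 0 < c ∧ ∀ (a : ℤ) (b : ℕ), 0 < b → c / (b : ℝ) ^ 6180 ≤ |zr 5 - (a : ℝ) / b| := by
  obtain ⟨b0, hb0, h⟩ := large_den
  have hb0R : (0 : ℝ) < b0 := by exact_mod_cast hb0
  refine ⟨((b0 : ℝ) ^ 6180)⁻¹, by positivity, fun a b hb => ?_⟩
  have hbR : (0 : ℝ) < b := by exact_mod_cast hb
  have h1 := h (a * b0) (b * b0) (Nat.le_mul_of_pos_left b0 hb)
  push_cast at h1
  rw [mul_div_mul_right _ _ hb0R.ne'] at h1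
  refine le_trans (le_of_eq ?_) h1.le
  rw [mul_pow, mul_inv, div_eq_mul_inv]
  ring

end

end Pool.Agent.H336R2.Z5M
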