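import Pool.Agent.H336R2.Z5M.Gen

/-!
# Irrationality measure of `ζ(5)`: a norm on power series modulo `X^2`
-/

open Polynomial Pool.Agent.H337R2 Pool.Agent.H336R2.Z5

namespace Pool.Agent.H336R2.Z5M

noncomputable section

/-- `|a_0| + |a_1|` -/
def N1 (f : PowerSeries ℚ) : ℚ := |PowerSeries.coeff 0 f| + |PowerSeries.coeff 1 f|

lemma N1_nonneg (f : PowerSeries ℚ) : 0 ≤ N1 f := add_nonneg (abs_nonneg _) (abs_nonneg _)

lemma N1_mul (f g : PowerSeries ℚ) : N1 (f * g) ≤ N1 f * N1 g := by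
  unfold N1
  have h0 : PowerSeries.coeff 0 (f * g) = PowerSeries.coeff 0 f * PowerSeries.coeff 0 g := by
    rw [PowerSeries.coeff_mul]
    simp
  have h1 : PowerSeries.coeff 1 (f * g) = PowerSeries.coeff 0 f * PowerSeries.coeff 1 g +
      PowerSeries.coeff 1 f * PowerSeries.coeff 0 g := by
    rw [PowerSeries.coeff_mul]
    simp [Finset.Nat.antidiagonal_succ]
  rw [h0, h1]
  set a := PowerSeries.coeff 0 f
  set b := PowerSeries.coeff 1 f
  set c := PowerSeries.coeff 0 g
  set d := PowerSeries.coeff 1 g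
  have h2 := abs_add_le (a * d) (b * c)
  rw [abs_mul] at h2
  have h3 : |b * c| = |b| * |c| := abs_mul _ _
  have h4 : |a * c| = |a| * |c| := abs_mul _ _
  nlinarith [mul_nonneg (abs_nonneg b) (abs_nonneg d)]

lemma N1_one : N1 1 = 1 := by
  unfold N1
  simp [PowerSeries.coeff_one]

lemma N1_pow (f : PowerSeries ℚ) (e : ℕ) : N1 (f ^ e) ≤ N1 f ^ e := by
  induction e with
  | zero => simp [N1_one]
  | succ e ih =>
    rw [pow_succ, pow_succ]
    exact (N1_mul _ _).trans (mul_le_mul_of_nonneg_right ih (N1_nonneg f))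

lemma N1_prod {ι : Type*} (s : Finset ι) (f : ι → PowerSeries ℚ) : N1 (∏ i ∈ s, f i) ≤ ∏ i ∈ s, N1 (f i) := by
  classical
  induction s using Finset.induction_on with
  | empty => simp [N1_one]
  | insert a s ha ih =>
    rw [Finset.prod_insert ha, Finset.prod_insert ha]
    exact (N1_mul _ _).trans (mul_le_mul_of_nonneg_left ih (N1_nonneg _))

lemma N1_add (f g : PowerSeries ℚ) : N1 (f + g) ≤ N1 f + N1 g := by
  unfold N1
  rw [map_add, map_add]
  have h1 := abs_add_le (PowerSeries.coeff 0 f) (PowerSeries.coeff 0 g)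
  have h2 := abs_add_le (PowerSeries.coeff 1 f) (PowerSeries.coeff 1 g)
  linarith

lemma N1_sub (f g : PowerSeries ℚ) : N1 (f - g) ≤ N1 f + N1 g := by
  unfold N1
  rw [map_sub, map_sub]
  have h1 := abs_sub (PowerSeries.coeff 0 f) (PowerSeries.coeff 0 g)
  have h2 := abs_sub (PowerSeries.coeff 1 f) (PowerSeries.coeff 1 g)
  linarith

lemma N1_C (a : ℚ) : N1 (PowerSeries.C a) = |a| := by
  unfold N1
  simp [PowerSeries.coeff_C]

lemma N1_lin (a : ℚ) : N1 (PowerSeries.X + PowerSeries.C a) = |a| + 1 := by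
  unfold N1
  simp [PowerSeries.coeff_X]

lemma N1_iv {a : ℚ} (ha : a ≠ 0) : N1 (iv a) = (|a| + 1) / |a| ^ 2 := by
  unfold N1 iv
  rw [PowerSeries.coeff_mk, PowerSeries.coeff_mk]
  have h : |a| ≠ 0 := abs_ne_zero.2 ha
  rw [abs_div, abs_div]
  simp
  field_simp
  rw [mul_add, mul_one, ← sq, sq_abs]

lemma coeff1_le (f : PowerSeries ℚ) : |PowerSeries.coeff 1 f| ≤ N1 f := by
  unfold N1
  linarith [abs_nonneg (PowerSeries.coeff 0 f)]

/-- product over one half of a brick -/
lemma half_brick (L : ℕ) : ∏ j ∈ Finset.range L, (((j : ℚ) + 2) / ((j : ℚ) + 1) ^ 2) = ((L : ℚ) + 1) / (L.factorial : ℚ) := by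
  induction L with
  | zero => simp
  | succ L ih =>
    rw [Finset.prod_range_succ, ih, Nat.factorial_succ]
    have h1 : (L.factorial : ℚ) ≠ 0 := by exact_mod_cast (Nat.factorial_pos L).ne'
    have h2 : (L : ℚ) + 1 ≠ 0 := by positivity
    push_cast
    field_simp
    ring

/-- the local factor -/
def fk (k m : ℕ) : ℚ := if m = k then 1 else N1 (iv (-(k : ℚ) + m))

lemma fk_nonneg (k m : ℕ) : 0 ≤ fk k m := by
  unfold fk
  split_ifs
  · norm_num
  · exact N1_nonneg _

lemma fk_eq {k m j : ℕ} (h : m = k + j + 1 ∨ k = m + j + 1) : fk k m = ((j : ℚ) + 2) / ((j : ℚ) + 1) ^ 2 := by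
  have hne : m ≠ k := by omega
  have hab : |(-(k : ℚ) + m)| = (j : ℚ) + 1 := by
    rcases h with h | h
    · rw [h]
      push_cast
      have : (-(k : ℚ) + (k + j + 1)) = j + 1 := by ring
      rw [this]
      exact abs_of_nonneg (by positivity)
    · rw [h]
      push_cast
      have : (-((m : ℚ) + j + 1) + m) = -(j + 1) := by ring
      rw [this, abs_neg]
      exact abs_of_nonneg (by positivity)
  have h0 : (-(k : ℚ) + m) ≠ 0 := by
    intro h0
    rw [h0, abs_zero] at hab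
    have : (0 : ℚ) < (j : ℚ) + 1 := by positivity
    linarith
  unfold fk
  rw [if_neg hne, N1_iv h0, hab]
  congr 1
  ring

lemma brick {a b k : ℕ} (h1 : a ≤ k) (h2 : k ≤ b) :
    ∏ m ∈ Finset.Icc a b, fk k m = (((k - a : ℕ) : ℚ) + 1) / ((k - a).factorial : ℚ) *
      ((((b - k : ℕ) : ℚ) + 1) / ((b - k).factorial : ℚ)) := by
  have e0 : Finset.Icc a b = Finset.Ico a (b + 1) := by
    ext m
    simp only [Finset.mem_Icc, Finset.mem_Ico]
    omega
  rw [e0, ← Finset.prod_Ico_consecutive (fk k) h1 (by omega : k ≤ b + 1),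
    Finset.prod_eq_prod_Ico_succ_bot (by omega : k < b + 1)]
  have hk : fk k k = 1 := by simp [fk]
  rw [hk, one_mul]
  congr 1
  · rw [← half_brick, Finset.prod_Ico_eq_prod_range, ← Finset.prod_range_reflect]
    refine Finset.prod_congr rfl fun j hj => ?_
    rw [Finset.mem_range] at hj
    apply fk_eq
    right
    omega
  · rw [← half_brick, Finset.prod_Ico_eq_prod_range]
    have : b + 1 - (k + 1) = b - k := by omega
    rw [this]
    refine Finset.prod_congr rfl fun j hj => ?_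
    apply fk_eq
    left
    omega

/-- brick with its factorial -/
lemma brick_le {a b k N : ℕ} (h1 : a ≤ k) (h2 : k ≤ b) (hN : b ≤ N) :
    ((b - a).factorial : ℚ) * ∏ m ∈ Finset.Icc a b, fk k m ≤ ((N : ℚ) + 1) ^ 2 * 2 ^ (b - a) := by
  rw [brick h1 h2]
  set L := k - a with hL
  set M := b - k with hM
  have hLM : b - a = L + M := by omega
  rw [hLM]
  have h3 : ((L + M).choose M : ℚ) * L.factorial * M.factorial = (L + M).factorial := by
    have := Nat.add_choose_mul_factorial_mul_factorial L M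
    exact_mod_cast this
  have h5 : ((L + M).choose M : ℚ) ≤ 2 ^ (L + M) := by
    exact_mod_cast Nat.choose_le_two_pow (L + M) M
  have hL0 : (L.factorial : ℚ) ≠ 0 := by exact_mod_cast (Nat.factorial_pos L).ne'
  have hM0 : (M.factorial : ℚ) ≠ 0 := by exact_mod_cast (Nat.factorial_pos M).ne'
  have h6 : ((L + M).factorial : ℚ) * (((L : ℚ) + 1) / (L.factorial : ℚ) * (((M : ℚ) + 1) / (M.factorial : ℚ))) =
      ((L + M).choose M : ℚ) * (((L : ℚ) + 1) * ((M : ℚ) + 1)) := by
    rw [← h3]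
    field_simp
  rw [h6]
  have h7 : (L : ℚ) + 1 ≤ (N : ℚ) + 1 := by
    have : L ≤ N := by omega
    have : (L : ℚ) ≤ N := by exact_mod_cast this
    linarith
  have h8 : (M : ℚ) + 1 ≤ (N : ℚ) + 1 := by
    have : M ≤ N := by omega
    have : (M : ℚ) ≤ N := by exact_mod_cast this
    linarith
  have h9 : ((L : ℚ) + 1) * ((M : ℚ) + 1) ≤ ((N : ℚ) + 1) ^ 2 := by
    rw [sq]
    exact mul_le_mul h7 h8 (by positivity) (by positivity)
  calc ((L + M).choose M : ℚ) * (((L : ℚ) + 1) * ((M : ℚ) + 1)) ≤ 2 ^ (L + M) * ((N : ℚ) + 1) ^ 2 :=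
        mul_le_mul h5 h9 (by positivity) (by positivity)
    _ = _ := by ring

end

end Pool.Agent.H336R2.Z5M
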