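import Pool.Agent.H336R2.Z5M.N1
import Pool.Agent.H312R.ZA.AL2
import Pool.Agent.H312R.ZA.AN

/-!
# Irrationality measure of `ζ(5)`: bound for the coefficient of `ζ(5)`
-/

open Polynomial Pool.Agent.H337R2 Pool.Agent.H336R2.Z5 Pool.Agent.H312R.ZA

namespace Pool.Agent.H336R2.Z5M

noncomputable section

/-- product of the two Lagrange polynomials of the lattice nodes -/
abbrev LLp (n i j : ℕ) : ℚ[X] :=
  lag (mN n) (fun j => xq n (nd n j)) i * lag (mN n) (fun j => xq n (nd n j)) j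

/-- bound for the coefficients -/
def TT (n : ℕ) : ℚ :=
  (24 * n + 2) * ((12 * (n : ℚ) + 1) ^ 2) ^ 49 * (19742 * (n : ℚ) ^ 2) ^ (2 * (mN n - 1)) *
    (((24 * (n : ℚ) + 1) ^ 2) ^ 6 * 2 ^ (96 * n))

lemma TT_nonneg (n : ℕ) : 0 ≤ TT n := by unfold TT; positivity

lemma mu_six {n k : ℕ} (h : 5 ≤ muN n k) : muN n k = 6 ∧ 5 * n ≤ k ∧ k ≤ 19 * n := by
  have h1 : muN n k = (if 3 * n ≤ k ∧ k + 3 * n ≤ 24 * n then 2 else 0) +
      (if 4 * n ≤ k ∧ k + 4 * n ≤ 24 * n then 2 else 0) + (if 5 * n ≤ k ∧ k + 5 * n ≤ 24 * n then 2 else 0) := by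
    unfold muN mu dz
    simp only [List.countP_cons, List.countP_nil, decide_eq_true_eq]
    split_ifs <;> rfl
  rw [h1] at h ⊢
  split_ifs at h ⊢ <;> omega

lemma VV_bound {n k : ℕ} (hn : 1 ≤ n) (h5 : 5 * n ≤ k) (h19 : k ≤ 19 * n) :
    cstN n * N1 (Pool.Agent.H337R2.VV ((sN n).erase k) (muN n) (-(k : ℚ))) ≤ (((24 * (n : ℚ) + 1) ^ 2) ^ 6 * 2 ^ (96 * n)) := by
  have hks : k ∈ sN n := by
    unfold sN ss
    rw [Finset.mem_Icc]
    omega
  have h1 : N1 (Pool.Agent.H337R2.VV ((sN n).erase k) (muN n) (-(k : ℚ))) ≤ ∏ m ∈ sN n, fk k m ^ muN n m := by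
    unfold Pool.Agent.H337R2.VV
    refine (N1_prod _ _).trans ?_
    rw [← Finset.mul_prod_erase (sN n) (fun m => fk k m ^ muN n m) hks]
    have hkk : fk k k = 1 := by simp [fk]
    rw [hkk, one_pow, one_mul]
    refine Finset.prod_le_prod (fun m _ => N1_nonneg _) fun m hm => ?_
    rw [Finset.mem_erase] at hm
    refine (N1_pow _ _).trans ?_
    unfold fk
    rw [if_neg hm.1]
  have h2 := prod_mu 24 2 n dz hn (by intro d hd; simp [dz] at hd; omega)
    (by intro d hd; simp [dz] at hd; omega) (fk k)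
  have hc : cstN n = (((18 * n).factorial : ℚ) * (((18 * n).factorial : ℚ) * (((16 * n).factorial : ℚ) *
      (((16 * n).factorial : ℚ) * (((14 * n).factorial : ℚ) * ((14 * n).factorial : ℚ)))))) := by
    unfold cstN cst dz
    simp
  have hc0 : 0 ≤ cstN n := by rw [hc]; positivity
  refine (mul_le_mul_of_nonneg_left (h1.trans_eq h2) hc0).trans ?_
  rw [hc]
  have b3 := brick_le (a := 3 * n) (b := 24 * n - 3 * n) (k := k) (N := 24 * n) (by omega) (by omega) (by omega)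
  have b4 := brick_le (a := 4 * n) (b := 24 * n - 4 * n) (k := k) (N := 24 * n) (by omega) (by omega) (by omega)
  have b5 := brick_le (a := 5 * n) (b := 24 * n - 5 * n) (k := k) (N := 24 * n) (by omega) (by omega) (by omega)
  rw [show 24 * n - 3 * n - 3 * n = 18 * n by omega] at b3
  rw [show 24 * n - 4 * n - 4 * n = 16 * n by omega] at b4
  rw [show 24 * n - 5 * n - 5 * n = 14 * n by omega] at b5
  simp only [dz, List.map_cons, List.map_nil, List.prod_cons, List.prod_nil, mul_one]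
  set P3 := ∏ m ∈ Finset.Icc (3 * n) (24 * n - 3 * n), fk k m
  set P4 := ∏ m ∈ Finset.Icc (4 * n) (24 * n - 4 * n), fk k m
  set P5 := ∏ m ∈ Finset.Icc (5 * n) (24 * n - 5 * n), fk k m
  have p3 : 0 ≤ P3 := Finset.prod_nonneg fun m _ => fk_nonneg k m
  have p4 : 0 ≤ P4 := Finset.prod_nonneg fun m _ => fk_nonneg k m
  have p5 : 0 ≤ P5 := Finset.prod_nonneg fun m _ => fk_nonneg k m
  push_cast at b3 b4 b5
  set N : ℚ := 24 * (n : ℚ) + 1
  have q3 : 0 ≤ ((18 * n).factorial : ℚ) * P3 := by positivity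
  have q4 : 0 ≤ ((16 * n).factorial : ℚ) * P4 := by positivity
  have q5 : 0 ≤ ((14 * n).factorial : ℚ) * P5 := by positivity
  have r3 := pow_le_pow_left₀ q3 b3 2
  have r4 := pow_le_pow_left₀ q4 b4 2
  have r5 := pow_le_pow_left₀ q5 b5 2
  calc _ = (((18 * n).factorial : ℚ) * P3) ^ 2 * ((((16 * n).factorial : ℚ) * P4) ^ 2 *
        (((14 * n).factorial : ℚ) * P5) ^ 2) := by ring
    _ ≤ (N ^ 2 * 2 ^ (18 * n)) ^ 2 * ((N ^ 2 * 2 ^ (16 * n)) ^ 2 * (N ^ 2 * 2 ^ (14 * n)) ^ 2) := by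
        apply mul_le_mul r3 (mul_le_mul r4 r5 (by positivity) (by positivity)) (by positivity) (by positivity)
    _ = (N ^ 2) ^ 6 * 2 ^ (96 * n) := by
        have : 96 * n = 18 * n * 2 + (16 * n * 2 + 14 * n * 2) := by ring
        rw [this, pow_add, pow_add, pow_mul 2 (18 * n) 2, pow_mul 2 (16 * n) 2, pow_mul 2 (14 * n) 2]
        ring

lemma N1_xp {n k : ℕ} (hk : k ≤ 24 * n) : N1 (TS (-(k : ℚ)) (xp n)) ≤ (12 * (n : ℚ) + 1) ^ 2 := by
  unfold xp
  rw [map_mul, TS_X, TS_lin]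
  refine (N1_mul _ _).trans ?_
  rw [N1_lin, N1_lin]
  have h1 : |(-(k : ℚ))| = k := by rw [abs_neg]; exact abs_of_nonneg (by positivity)
  have hk' : (k : ℚ) ≤ 24 * n := by exact_mod_cast hk
  have h2 : |(-(k : ℚ) + ((24 * n : ℕ) : ℚ))| = 24 * n - k := by
    push_cast
    rw [abs_of_nonneg (by linarith)]
    ring
  rw [h1, h2]
  nlinarith [sq_nonneg ((k : ℚ) - 12 * n)]

lemma N1_node {n k l : ℕ} (hn : 25 ≤ n) (hk : k ≤ 24 * n) (hl : l < mN n) :
    N1 (TS (-(k : ℚ)) (xp n - C (xq n (nd n l)))) ≤ 19742 * (n : ℚ) ^ 2 := by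
  rw [map_sub, TS_C]
  refine (N1_sub _ _).trans ?_
  rw [N1_C]
  have h1 := N1_xp hk
  have hn' : (25 : ℚ) ≤ n := by exact_mod_cast hn
  have h2 := N2_lower (n := n) (by omega) l
  have h3 := N3_upper (n := n) (by omega) hl
  have h2' : 16 * (n : ℚ) ≤ nd n l := by exact_mod_cast h2.le
  have h3' : (nd n l : ℚ) ≤ 281 * n := by exact_mod_cast h3.le
  have h4 : |xq n (nd n l)| ≤ 19597 * (n : ℚ) ^ 2 := by
    unfold xq
    rw [abs_le]
    constructor <;> nlinarith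
  nlinarith

lemma N1_EE {n k i j : ℕ} (hn : 25 ≤ n) (hk : k ≤ 24 * n) (hi : i < mN n) (hj : j < mN n) :
    N1 (TS (-(k : ℚ)) (EE n (LLp n i j))) ≤
      ((12 * (n : ℚ) + 1) ^ 2) ^ 49 * (19742 * (n : ℚ) ^ 2) ^ (2 * (mN n - 1)) := by
  have hprod : ∀ i < mN n, N1 (TS (-(k : ℚ)) ((lag (mN n) (fun j => xq n (nd n j)) i).comp (xp n))) ≤
      (19742 * (n : ℚ) ^ 2) ^ (mN n - 1) := by
    intro i hi
    unfold lag
    rw [Polynomial.prod_comp, map_prod]
    refine (N1_prod _ _).trans ?_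
    have h1 : ∀ l ∈ (Finset.range (mN n)).erase i,
        N1 (TS (-(k : ℚ)) ((X - C (xq n (nd n l))).comp (xp n))) ≤ 19742 * (n : ℚ) ^ 2 := by
      intro l hl
      rw [Polynomial.sub_comp, Polynomial.X_comp, Polynomial.C_comp]
      exact N1_node hn hk (Finset.mem_range.1 (Finset.mem_erase.1 hl).2)
    refine (Finset.prod_le_prod (fun l _ => N1_nonneg _) h1).trans ?_
    rw [Finset.prod_const, Finset.card_erase_of_mem (Finset.mem_range.2 hi), Finset.card_range]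
  unfold EE
  rw [Polynomial.mul_comp, Polynomial.pow_comp, Polynomial.X_comp, Polynomial.mul_comp, map_mul, map_mul, map_pow]
  refine (N1_mul _ _).trans ?_
  have h1 : N1 (TS (-(k : ℚ)) (xp n) ^ 49) ≤ ((12 * (n : ℚ) + 1) ^ 2) ^ 49 :=
    (N1_pow _ _).trans (pow_le_pow_left₀ (N1_nonneg _) (N1_xp hk) 49)
  have h2 := (N1_mul (TS (-(k : ℚ)) ((lag (mN n) (fun j => xq n (nd n j)) i).comp (xp n)))
    (TS (-(k : ℚ)) ((lag (mN n) (fun j => xq n (nd n j)) j).comp (xp n)))).trans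
      (mul_le_mul (hprod i hi) (hprod j hj) (N1_nonneg _) (by positivity))
  refine mul_le_mul h1 (h2.trans (le_of_eq ?_)) (N1_nonneg _) (by positivity)
  rw [← pow_add, two_mul]

lemma N1_PP {n k : ℕ} (hk : k ≤ 24 * n) : N1 (TS (-(k : ℚ)) (PPn n)) ≤ cstN n * (24 * n + 2) := by
  have hc0 : 0 ≤ cstN n := by
    unfold cstN cst dz
    simp only [List.map_cons, List.map_nil, List.prod_cons, List.prod_nil]
    positivity
  have h0 : PPn n = C (cstN n) * (2 * X + C (24 * n : ℚ)) := by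
    unfold PPn PP NN
    simp
  rw [h0, map_mul, TS_C]
  refine (N1_mul _ _).trans ?_
  rw [N1_C, abs_of_nonneg hc0]
  apply mul_le_mul_of_nonneg_left _ hc0
  have h1 : TS (-(k : ℚ)) (2 * X + C (24 * n : ℚ)) =
      PowerSeries.C 2 * PowerSeries.X + PowerSeries.C (24 * n - 2 * k : ℚ) := by
    have h2 : (2 * X + C (24 * n : ℚ) : ℚ[X]) = C 2 * X + C (24 * n : ℚ) := by
      rw [show (C (2 : ℚ) : ℚ[X]) = 2 from rfl]
    rw [h2, map_add, map_mul, TS_C, TS_X, TS_C]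
    have h3 : (PowerSeries.C (24 * n - 2 * k : ℚ)) =
        PowerSeries.C 2 * PowerSeries.C (-(k : ℚ)) + PowerSeries.C (24 * n : ℚ) := by
      rw [← map_mul, ← map_add]
      congr 1
      ring
    rw [h3]
    ring
  rw [h1]
  unfold N1
  have hk' : (k : ℚ) ≤ 24 * n := by exact_mod_cast hk
  have hk0 : (0 : ℚ) ≤ k := by positivity
  have e0 : PowerSeries.coeff 0 (PowerSeries.C 2 * PowerSeries.X + PowerSeries.C (24 * n - 2 * k : ℚ)) =
      (24 * n - 2 * k : ℚ) := by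
    simp
  have e1 : PowerSeries.coeff 1 (PowerSeries.C 2 * PowerSeries.X + PowerSeries.C (24 * n - 2 * k : ℚ)) =
      (2 : ℚ) := by
    rw [map_add, PowerSeries.coeff_C_mul, PowerSeries.coeff_C]
    simp [PowerSeries.coeff_X]
  rw [e0, e1]
  have h3 : |(24 * (n : ℚ) - 2 * k)| ≤ 24 * n := by
    rw [abs_le]
    constructor <;> linarith
  have h4 : |(2 : ℚ)| = 2 := by norm_num
  rw [h4]
  linarith

theorem pa5_bound {n : ℕ} (hn : 25 ≤ n) {i j : ℕ} (hi : i < mN n) (hj : j < mN n) (k : ℕ) :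
    |pa (sN n) (muN n) (PPn n * EE n (LLp n i j)) k 5| ≤ TT n := by
  unfold pa
  split_ifs with h5
  · obtain ⟨h6, hk5, hk19⟩ := mu_six h5
    rw [h6]
    unfold pfc
    refine (coeff1_le _).trans ?_
    refine (N1_mul _ _).trans ?_
    have hk24 : k ≤ 24 * n := by omega
    have h1 : N1 (TS (-(k : ℚ)) (PPn n * EE n (LLp n i j))) ≤
        (cstN n * (24 * n + 2)) * (((12 * (n : ℚ) + 1) ^ 2) ^ 49 * (19742 * (n : ℚ) ^ 2) ^ (2 * (mN n - 1))) := by
      rw [map_mul]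
      refine (N1_mul _ _).trans ?_
      exact mul_le_mul (N1_PP hk24) (N1_EE hn hk24 hi hj) (N1_nonneg _) ((N1_nonneg _).trans (N1_PP hk24))
    have h2 := VV_bound (n := n) (by omega) hk5 hk19
    refine (mul_le_mul_of_nonneg_right h1 (N1_nonneg _)).trans ?_
    unfold TT
    set A : ℚ := (24 * n + 2) * (((12 * (n : ℚ) + 1) ^ 2) ^ 49 * (19742 * (n : ℚ) ^ 2) ^ (2 * (mN n - 1)))
      with hA
    have hA0 : 0 ≤ A := by rw [hA]; positivity
    calc _ = A * (cstN n * N1 (Pool.Agent.H337R2.VV ((sN n).erase k) (muN n) (-(k : ℚ)))) := by rw [hA]; ring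
      _ ≤ A * (((24 * (n : ℚ) + 1) ^ 2) ^ 6 * 2 ^ (96 * n)) := mul_le_mul_of_nonneg_left h2 hA0
      _ = _ := by rw [hA]; ring
  · rw [abs_zero]
    exact TT_nonneg n

theorem rho_bound {n : ℕ} (hn : 25 ≤ n) {i j : ℕ} (hi : i < mN n) (hj : j < mN n) :
    |rho n (LLp n i j)| ≤ 20 * n * TT n := by
  unfold rho
  refine (Finset.abs_sum_le_sum_abs _ _).trans ?_
  refine (Finset.sum_le_sum fun k _ => pa5_bound hn hi hj k).trans ?_
  rw [Finset.sum_const, nsmul_eq_mul]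
  apply mul_le_mul_of_nonneg_right _ (TT_nonneg n)
  have h1 : (sN n).card ≤ 20 * n := by
    unfold sN ss
    rw [Nat.card_Icc]
    omega
  exact_mod_cast h1

end

end Pool.Agent.H336R2.Z5M
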